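import Mathlib

namespace Pool.Agent.Lib_helper20.RB

variable {N r : ℕ}

/-- the sum of Boolean values vanishes iff an even number of them is true -/
lemma sum_eq_false_iff {ι : Type} [DecidableEq ι] (I : Finset ι) (b : ι → Bool) :
    (∑ i ∈ I, b i = false) ↔ Even (I.filter (fun i => b i = true)).card := by
  induction I using Finset.induction_on with
  | empty => simp; rfl
  | insert a I ha ih =>
    rw [Finset.sum_insert ha, Finset.filter_insert]
    cases hb : b a
    · simp only [Bool.false_eq_true, if_false]
      rw [← ih]
      constructor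
      · intro h
        have : (false : Bool) = 0 := rfl
        rw [this, zero_add] at h
        exact h
      · intro h
        have : (false : Bool) = 0 := rfl
        rw [h, this, zero_add]
    · simp only [if_true]
      rw [Finset.card_insert_of_notMem (by simp [ha]), Nat.even_add_one, ← ih]
      cases ∑ i ∈ I, b i <;> decide

/-- a binary linear code with `r` checks has at least `2 ^ (N - r)` elements -/
lemma card_code (H : Fin r → Finset (Fin N)) (S : Finset (Fin N → Bool))
    (hS : ∀ x, x ∈ S ↔ ∀ t, ∑ i ∈ H t, x i = false) : 2 ^ N ≤ 2 ^ r * S.card := by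
  classical
  set syn : (Fin N → Bool) → (Fin r → Bool) := fun x t => ∑ i ∈ H t, x i with hsyn
  have hadd : ∀ x y : Fin N → Bool, syn (x + y) = syn x + syn y := by
    intro x y
    funext t
    simp only [hsyn, Pi.add_apply, Finset.sum_add_distrib]
  have hcard : (Finset.univ : Finset (Fin N → Bool)).card =
      ∑ c : Fin r → Bool, (Finset.univ.filter (fun x => syn x = c)).card :=
    Finset.card_eq_sum_card_fiberwise (fun x _ => Finset.mem_univ _)
  have hfib : ∀ c : Fin r → Bool, (Finset.univ.filter (fun x => syn x = c)).card ≤ S.card := by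
    intro c
    by_cases hne : (Finset.univ.filter (fun x => syn x = c)).Nonempty
    · obtain ⟨x0, hx0⟩ := hne
      rw [Finset.mem_filter] at hx0
      apply Finset.card_le_card_of_injOn (fun x => x + x0)
      · intro x hx
        rw [Finset.mem_coe, Finset.mem_filter] at hx
        rw [Finset.mem_coe, hS]
        intro t
        have h1 : syn (x + x0) t = false := by
          rw [hadd, hx.2, hx0.2]
          show c t + c t = false
          cases c t <;> decide
        exact h1
      · intro x _ y _ hxy
        exact add_right_cancel hxy
    · rw [Finset.not_nonempty_iff_eq_empty] at hne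
      rw [hne]
      simp
  have h1 : (Finset.univ : Finset (Fin N → Bool)).card = 2 ^ N := by simp
  rw [← h1, hcard]
  calc ∑ c : Fin r → Bool, (Finset.univ.filter (fun x => syn x = c)).card
      ≤ ∑ _c : Fin r → Bool, S.card := Finset.sum_le_sum (fun c _ => hfib c)
    _ = 2 ^ r * S.card := by simp

/-- distance three, when the columns are distinct and nonzero -/
lemma dist_code (H : Fin r → Finset (Fin N)) (h1 : ∀ i, ∃ t, i ∈ H t)
    (h2 : ∀ i j, i ≠ j → ∃ t, ¬ (i ∈ H t ↔ j ∈ H t)) (x x' : Fin N → Bool)
    (hx : ∀ t, ∑ i ∈ H t, x i = false) (hx' : ∀ t, ∑ i ∈ H t, x' i = false) (hne : x ≠ x') :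
    3 ≤ hammingDist x x' := by
  classical
  by_contra hcon
  have hpar : ∀ t, Even ((H t).filter (fun i => x i ≠ x' i)).card := by
    intro t
    have : ∑ i ∈ H t, (x i + x' i) = false := by
      rw [Finset.sum_add_distrib, hx t, hx' t]
      rfl
    rw [sum_eq_false_iff] at this
    have hb : ∀ a b : Bool, (a ≠ b) ↔ (a + b = true) := by decide
    have he : (H t).filter (fun i => x i ≠ x' i) = (H t).filter (fun i => x i + x' i = true) :=
      Finset.filter_congr (fun i _ => hb (x i) (x' i))
    rw [he]
    exact this
  have hD : hammingDist x x' = (Finset.univ.filter (fun i => x i ≠ x' i)).card := rfl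
  have hsub : ∀ t, (H t).filter (fun i => x i ≠ x' i) =
      (Finset.univ.filter (fun i => x i ≠ x' i)).filter (fun i => i ∈ H t) := by
    intro t
    ext i
    simp [and_comm]
  have hpos : 0 < hammingDist x x' := hammingDist_pos.mpr hne
  rcases (by omega : hammingDist x x' = 1 ∨ hammingDist x x' = 2) with h | h
  · rw [hD, Finset.card_eq_one] at h
    obtain ⟨i, hi⟩ := h
    obtain ⟨t, ht⟩ := h1 i
    have := hpar t
    rw [hsub, hi, Finset.filter_singleton, if_pos ht] at this
    simp at this
  · rw [hD, Finset.card_eq_two] at h
    obtain ⟨i, j, hij, hi⟩ := h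
    obtain ⟨t, ht⟩ := h2 i j hij
    have := hpar t
    rw [hsub, hi] at this
    by_cases ha : i ∈ H t
    · have hb : j ∉ H t := fun hb => ht ⟨fun _ => hb, fun _ => ha⟩
      rw [Finset.filter_insert, if_pos ha, Finset.filter_singleton, if_neg hb] at this
      simp at this
    · have hb : j ∈ H t := by
        by_contra hb
        exact ht ⟨fun h => absurd h ha, fun h => absurd h hb⟩
      rw [Finset.filter_insert, if_neg ha, Finset.filter_singleton, if_pos hb] at this
      simp at this

end Pool.Agent.Lib_helper20.RB
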