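import Mathlib

namespace Pool.Agent.Lib_helper20.RB

/-- A node of a circuit with `N` input bits, `m` witness bits and `s` gates. -/
inductive Node (N m s : ℕ) : Type
  | const (b : Bool)
  | inp (i : Fin N)
  | wit (j : Fin m)
  | gate (k : Fin s)
  deriving DecidableEq

/-- The rank of gate `k` is `k + 1`, other nodes have rank `0`. -/
def Node.rank {N m s : ℕ} : Node N m s → ℕ
  | .gate k => k.val + 1
  | _ => 0

/-- The value of a node, given the input bits, the witness bits and the values of the gates. -/
def Node.val {N m s : ℕ} (x : Fin N → Bool) (w : Fin m → Bool) (g : Fin s → Bool) :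
    Node N m s → Bool
  | .const b => b
  | .inp i => x i
  | .wit j => w j
  | .gate k => g k

/-- A circuit over the full binary basis: gate `k` applies an arbitrary binary Boolean operation
`op k` to two sources, which are constants, input bits, witness bits or earlier gates
(gate `k` only reads nodes of rank at most `k`). -/
structure Circuit (N m s : ℕ) where
  op : Fin s → Bool → Bool → Bool
  left : Fin s → Node N m s
  right : Fin s → Node N m s
  out : Node N m s
  left_rank : ∀ k, (left k).rank ≤ k.val
  right_rank : ∀ k, (right k).rank ≤ k.val

variable {N m s : ℕ}

/-- `g` lists the values of the gates on input `x` and witness `w`. -/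
def Circuit.Run (C : Circuit N m s) (x : Fin N → Bool) (w : Fin m → Bool) (g : Fin s → Bool) :
    Prop :=
  ∀ k, g k = C.op k ((C.left k).val x w g) ((C.right k).val x w g)

/-- The nondeterministic circuit accepts `x`: for some witness the output node is true. -/
def Circuit.Accepts (C : Circuit N m s) (x : Fin N → Bool) : Prop :=
  ∃ w g, C.Run x w g ∧ C.out.val x w g = true

end Pool.Agent.Lib_helper20.RB
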