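import Pool.Agent.Lib_helper20.RB.States

namespace Pool.Agent.Lib_helper20.RB

variable {N m s : ℕ}

/-- the nodes on which `y` and `y'` differ -/
def diff (y y' : Node N m s → Bool) : Finset (Node N m s) :=
  Finset.univ.filter (fun v => y v ≠ y' v)

lemma mem_diff {y y' : Node N m s → Bool} {v : Node N m s} : v ∈ diff y y' ↔ y v ≠ y' v := by
  simp [diff]

lemma flp_diff (y y' : Node N m s → Bool) : flp y (diff y y') = y' := by
  funext v
  unfold flp
  by_cases h : v ∈ diff y y'
  · rw [if_pos h]
    have := mem_diff.mp h
    cases hy : y v <;> cases hy' : y' v <;> simp_all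
  · rw [if_neg h]
    by_contra hc
    exact h (mem_diff.mpr hc)

lemma diff_flp (y : Node N m s → Bool) (Z : Finset (Node N m s)) : diff y (flp y Z) = Z := by
  ext v
  rw [mem_diff]
  unfold flp
  by_cases h : v ∈ Z
  · simp [h]
  · simp [h]

lemma diff_flp_flp {y y' : Node N m s → Bool} {Z : Finset (Node N m s)}
    (hZ : Z ⊆ diff y y') : diff (flp y Z) y' = diff y y' \ Z := by
  ext v
  rw [mem_diff, Finset.mem_sdiff, mem_diff]
  unfold flp
  by_cases h : v ∈ Z
  · have := mem_diff.mp (hZ h)
    simp only [h, if_true, not_true_eq_false, and_false, iff_false, not_not]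
    cases hy : y v <;> cases hy' : y' v <;> simp_all
  · simp [h]

/-- is the node popular? -/
def pop (C : Circuit N m s) (G : Finset (Fin s)) : Node N m s → Bool
  | .const _ => false
  | .inp i => decide (2 ≤ reads C G (.inp i))
  | .wit j => decide (3 ≤ reads C G (.wit j))
  | .gate k => decide (k ∈ G ∧ 2 ≤ reads C G (.gate k))

/-- the popular nodes -/
def Phi (C : Circuit N m s) (G : Finset (Fin s)) : Finset (Node N m s) :=
  Finset.univ.filter (fun v => pop C G v = true)

/-- upper bound for the positions of a node -/
lemma slots_le (C : Circuit N m s) (G : Finset (Fin s)) (v : Node N m s) :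
    slots (fun k => Node.gate k) C.left C.right G v ≤ reads C G v +
      (∑ k ∈ G, if Node.gate k = v then 1 else 0) := by
  unfold slots reads slot
  have : ∑ k ∈ G, ((if Node.gate k = v then 1 else 0) + (if C.left k = v then 1 else 0) +
      (if C.right k = v then 1 else 0)) = (∑ k ∈ G, if Node.gate k = v then 1 else 0) +
      ∑ k ∈ G, ((if C.left k = v then 1 else 0) + (if C.right k = v then 1 else 0)) := by
    rw [← Finset.sum_add_distrib]
    exact Finset.sum_congr rfl (fun k _ => by ring)
  rw [this]
  omega

lemma sum_gate_eq (G : Finset (Fin s)) (v : Node N m s) :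
    (∑ k ∈ G, if Node.gate k = v then 1 else 0) ≤ 1 := by
  cases v with
  | const b => simp
  | inp i => simp
  | wit j => simp
  | gate k =>
    have : ∀ j ∈ G, (if (Node.gate j : Node N m s) = Node.gate k then 1 else 0) =
        (if j = k then 1 else 0) := by
      intro j _
      simp
    rw [Finset.sum_congr rfl this, Finset.sum_ite_eq']
    split_ifs <;> omega

/-- no position of a gate outside a closed set -/
lemma slots_gate_notMem {C : Circuit N m s} {G : Finset (Fin s)} (hG : Closed C G) {k : Fin s}
    (hk : k ∉ G) : slots (fun k => Node.gate k) C.left C.right G (.gate k) = 0 := by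
  unfold slots
  apply Finset.sum_eq_zero
  intro j hj
  have h1 : C.left j ≠ .gate k := fun h => hk (hG.2 j hj k (Or.inl h))
  have h2 : C.right j ≠ .gate k := fun h => hk (hG.2 j hj k (Or.inr h))
  have h3 : (Node.gate j : Node N m s) ≠ .gate k := by
    intro h
    injection h with h
    exact hk (h ▸ hj)
  simp [slot, h1, h2, h3]

/-- Accepting states which agree on the popular nodes have the same input bits. -/
lemma agree {C : Circuit N m s} {G : Finset (Fin s)} (hG : Closed C G)
    (hd : ∀ x x', C.Accepts x → C.Accepts x' → x ≠ x' → 3 ≤ hammingDist x x') :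
    ∀ (n : ℕ) (y y' : Node N m s → Bool), (diff y y').card = n → Acc C G y → Acc C G y' →
      (∀ v ∈ Phi C G, y v = y' v) → X y = X y' := by
  intro n
  induction n using Nat.strong_induction_on with
  | _ n ih =>
    intro y y' hn hy hy' hagree
    by_contra hX
    -- const and out not in the difference
    have hout : C.out ∉ diff y y' := by
      rw [mem_diff, hy.2.2, hy'.2.2]; simp
    have hconst : ∀ b, Node.const b ∉ diff y y' := by
      intro b; rw [mem_diff, hy.1 b, hy'.1 b]; simp
    -- rigidity
    have hrig : ∀ Z ⊆ diff y y', (∀ k ∈ G, Sat (fun k => Node.gate k) C.left C.right C.op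
        (flp y Z) k) ↔ (Z = ∅ ∨ Z = diff y y') := by
      intro Z hZ
      constructor
      · intro hsat
        by_contra hcon
        push Not at hcon
        obtain ⟨hZ0, hZ1⟩ := hcon
        have hacc : Acc C G (flp y Z) := by
          refine ⟨?_, hsat, ?_⟩
          · intro b
            have : Node.const b ∉ Z := fun h => hconst b (hZ h)
            simp [flp, this, hy.1 b]
          · have : C.out ∉ Z := fun h => hout (hZ h)
            simp [flp, this, hy.2.2]
        have hag : ∀ v ∈ Phi C G, y v = flp y Z v := by
          intro v hv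
          have : v ∉ Z := fun h => (mem_diff.mp (hZ h)) (hagree v hv)
          simp [flp, this]
        have hc1 : (diff y (flp y Z)).card < n := by
          rw [diff_flp, ← hn]
          exact Finset.card_lt_card (lt_of_le_of_ne hZ hZ1)
        have hc2 : (diff (flp y Z) y').card < n := by
          rw [diff_flp_flp hZ, ← hn]
          apply Finset.card_lt_card
          refine ⟨Finset.sdiff_subset, ?_⟩
          intro hsub
          obtain ⟨v, hv⟩ := hZ0
          exact (Finset.mem_sdiff.mp (hsub (hZ hv))).2 hv
        have e1 := ih _ hc1 y (flp y Z) rfl hy hacc hag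
        have e2 := ih _ hc2 (flp y Z) y' rfl hacc hy'
          (fun v hv => (hag v hv).symm.trans (hagree v hv))
        exact hX (e1.trans e2)
      · rintro (h | h)
        · subst h
          intro k hk
          have : flp y ∅ = y := by funext v; simp [flp]
          rw [this]
          exact hy.2.1 k hk
        · subst h
          rw [flp_diff]
          exact hy'.2.1
    -- number of positions
    have hin : ∀ i : Fin N, Node.inp i ∈ diff y y' →
        slots (fun k => Node.gate k) C.left C.right G (.inp i) ≤ 1 := by
      intro i hi
      have hnP : (Node.inp i : Node N m s) ∉ Phi C G :=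
        fun h => (mem_diff.mp hi) (hagree _ h)
      have h1 : ¬ 2 ≤ reads C G (.inp i) := by
        intro h
        apply hnP
        simp [Phi, pop, h]
      have h2 := slots_le C G (.inp i)
      have h3 : (∑ k ∈ G, if (Node.gate k : Node N m s) = .inp i then 1 else 0) = 0 := by
        simp
      omega
    have hle : ∀ e ∈ diff y y', slots (fun k => Node.gate k) C.left C.right G e ≤ 2 := by
      intro e he
      have hnP : e ∉ Phi C G := fun h => (mem_diff.mp he) (hagree _ h)
      cases e with
      | const b => exact absurd he (hconst b)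
      | inp i => have := hin i he; omega
      | wit j =>
        have h1 : ¬ 3 ≤ reads C G (.wit j) := by
          intro h
          apply hnP
          simp [Phi, pop, h]
        have h2 := slots_le C G (.wit j)
        have h3 : (∑ k ∈ G, if (Node.gate k : Node N m s) = .wit j then 1 else 0) = 0 := by
          simp
        omega
      | gate k =>
        by_cases hk : k ∈ G
        · have h1 : ¬ 2 ≤ reads C G (.gate k) := by
            intro h
            apply hnP
            simp [Phi, pop, h, hk]
          have h2 := slots_le C G (.gate k)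
          have h3 := sum_gate_eq G (Node.gate k : Node N m s)
          omega
        · rw [slots_gate_notMem hG hk]; omega
    have hR := rigid _ (diff y y') G rfl hrig hle
    -- at least three inputs in the difference
    have hax := accepts_of_acc hG hy
    have hax' := accepts_of_acc hG hy'
    have h3 := hd _ _ hax hax' hX
    have hI : ∃ I ⊆ diff y y', I.card = hammingDist (X y) (X y') ∧
        ∀ v ∈ I, slots (fun k => Node.gate k) C.left C.right G v ≤ 1 := by
      refine ⟨(Finset.univ.filter (fun i => X y i ≠ X y' i)).map
        ⟨fun i => Node.inp i, fun a b h => by injection h⟩, ?_, ?_, ?_⟩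
      · intro v hv
        rw [Finset.mem_map] at hv
        obtain ⟨i, hi, rfl⟩ := hv
        rw [mem_diff]
        simpa [X] using hi
      · rw [Finset.card_map]
        rfl
      · intro v hv
        rw [Finset.mem_map] at hv
        obtain ⟨i, hi, rfl⟩ := hv
        apply hin
        rw [mem_diff]
        simpa [X] using hi
    obtain ⟨I, hIs, hIc, hI1⟩ := hI
    have hsplit : ∑ e ∈ diff y y', slots (fun k => Node.gate k) C.left C.right G e ≤
        I.card * 1 + ((diff y y') \ I).card * 2 := by
      rw [← Finset.sum_sdiff hIs, add_comm]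
      refine add_le_add ?_ ?_
      · rw [← smul_eq_mul]
        exact Finset.sum_le_card_nsmul _ _ _ hI1
      · rw [← smul_eq_mul]
        exact Finset.sum_le_card_nsmul _ _ _
          (fun e he => hle e (Finset.mem_sdiff.mp he).1)
    have hcard := Finset.card_sdiff_add_card_eq_card hIs
    omega

/-- counting accepted inputs -/
lemma card_le {C : Circuit N m s} {G : Finset (Fin s)} (hG : Closed C G)
    (hd : ∀ x x', C.Accepts x → C.Accepts x' → x ≠ x' → 3 ≤ hammingDist x x')
    (S : Finset (Fin N → Bool)) (hS : ∀ x ∈ S, C.Accepts x) : S.card ≤ 2 ^ (Phi C G).card := by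
  classical
  have hch : ∀ x : Fin N → Bool, ∃ y : Node N m s → Bool, x ∈ S → Acc C G y ∧ X y = x := by
    intro x
    by_cases hx : x ∈ S
    · obtain ⟨y, hy⟩ := acc_of_accepts G (hS x hx)
      exact ⟨y, fun _ => hy⟩
    · exact ⟨fun _ => true, fun h => absurd h hx⟩
  choose y hy using hch
  have hinj : Set.InjOn (fun x => (fun v : {v // v ∈ Phi C G} => y x v.1)) (S : Set _) := by
    intro x hx x' hx' heq
    have h1 := hy x hx
    have h2 := hy x' hx'
    have := agree hG hd _ (y x) (y x') rfl h1.1 h2.1 (fun v hv => congrFun heq ⟨v, hv⟩)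
    rw [h1.2, h2.2] at this
    exact this
  have := Finset.card_le_card_of_injOn (s := S) (t := Finset.univ) _
    (fun x _ => Finset.mem_univ _) hinj
  simpa using this

lemma sum_node (f : Node N m s → ℕ) : ∑ v, f v = (∑ b, f (.const b)) + (∑ i, f (.inp i)) +
    (∑ j, f (.wit j)) + ∑ k, f (.gate k) := by
  rw [← Equiv.sum_comp (nodeEquiv N m s).symm f, Fintype.sum_sum_type, Fintype.sum_sum_type,
    Fintype.sum_sum_type]
  simp only [nodeEquiv, Equiv.coe_fn_symm_mk]
  ring

lemma sum_reads (C : Circuit N m s) (G : Finset (Fin s)) :
    ∑ v, reads C G v = 2 * G.card + 1 := by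
  classical
  unfold reads
  rw [Finset.sum_add_distrib, Finset.sum_comm]
  have : ∀ k ∈ G, ∑ v : Node N m s, ((if C.left k = v then 1 else 0) +
      (if C.right k = v then 1 else 0)) = 2 := by
    intro k _
    rw [Finset.sum_add_distrib]
    simp
  rw [Finset.sum_congr rfl this]
  simp
  ring

lemma count {C : Circuit N m s} {G : Finset (Fin s)}
    (hin : ∀ i, 1 ≤ reads C G (.inp i)) (hga : ∀ k ∈ G, 1 ≤ reads C G (.gate k)) :
    N + (Phi C G).card ≤ G.card + 1 := by
  classical
  have h1 : (Phi C G).card = ∑ v : Node N m s, (if pop C G v = true then 1 else 0) := by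
    rw [Phi, Finset.card_filter]
  have h2 := sum_reads C G
  rw [sum_node] at h1 h2
  have hc : ∑ b : Bool, (if pop C G (.const b) = true then 1 else 0) = 0 := by
    simp [pop]
  have hi : N + ∑ i : Fin N, (if pop C G (.inp i) = true then 1 else 0) ≤
      ∑ i : Fin N, reads C G (.inp i) := by
    have h0 : ∑ _i : Fin N, 1 = N := by simp
    have h1 : ∑ i : Fin N, (1 + (if pop C G (.inp i) = true then 1 else 0)) ≤
        ∑ i : Fin N, reads C G (.inp i) := by
      apply Finset.sum_le_sum
      intro i _
      have := hin i
      simp only [pop, decide_eq_true_eq]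
      split_ifs <;> omega
    rw [Finset.sum_add_distrib, h0] at h1
    exact h1
  have hw : ∑ j : Fin m, (if pop C G (.wit j) = true then 1 else 0) ≤
      ∑ j : Fin m, reads C G (.wit j) := by
    apply Finset.sum_le_sum
    intro j _
    simp only [pop, decide_eq_true_eq]
    split_ifs <;> omega
  have hg : G.card + ∑ k : Fin s, (if pop C G (.gate k) = true then 1 else 0) ≤
      ∑ k : Fin s, reads C G (.gate k) := by
    have : G.card = ∑ k : Fin s, (if k ∈ G then 1 else 0) := by simp
    rw [this, ← Finset.sum_add_distrib]
    apply Finset.sum_le_sum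
    intro k _
    simp only [pop, decide_eq_true_eq]
    by_cases hk : k ∈ G
    · have := hga k hk
      simp only [hk, true_and, if_true]
      split_ifs <;> omega
    · simp [hk]
  omega

/-- **Lower bound.** -/
theorem lower_bound (C : Circuit N m s) (r : ℕ) (S : Finset (Fin N → Bool))
    (hC : ∀ x, C.Accepts x ↔ x ∈ S) (hcard : 2 ^ N ≤ 2 ^ r * S.card)
    (hd : ∀ x ∈ S, ∀ x' ∈ S, x ≠ x' → 3 ≤ hammingDist x x') : 2 * N ≤ s + r + 1 := by
  classical
  obtain ⟨G, hG, hga⟩ := exists_min_closed C
  have hd' : ∀ x x', C.Accepts x → C.Accepts x' → x ≠ x' → 3 ≤ hammingDist x x' :=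
    fun x x' h h' hne => hd x ((hC x).mp h) x' ((hC x').mp h') hne
  have hin : ∀ i, 1 ≤ reads C G (.inp i) := by
    intro i
    by_contra hcon
    have hz : reads C G (.inp i) = 0 := by omega
    have hne : S.Nonempty := by
      rw [Finset.nonempty_iff_ne_empty]
      rintro rfl
      simp at hcard
    obtain ⟨x, hx⟩ := hne
    obtain ⟨y, hy, hyx⟩ := acc_of_accepts G ((hC x).mpr hx)
    unfold reads at hz
    have hz1 : ∑ j ∈ G, ((if C.left j = .inp i then 1 else 0) +
        (if C.right j = .inp i then 1 else 0)) = 0 := by omega
    have hz2 : C.out ≠ .inp i := by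
      intro h
      simp [h] at hz
    have hz3 := Finset.sum_eq_zero_iff.mp hz1
    have hacc : Acc C G (flp y {.inp i}) := by
      refine ⟨?_, ?_, ?_⟩
      · intro b
        simp [flp, hy.1 b]
      · intro k hk
        have h0 := hz3 k hk
        have h1 : C.left k ≠ .inp i := by intro h; simp [h] at h0
        have h2 : C.right k ≠ .inp i := by intro h; simp [h] at h0
        have := hy.2.1 k hk
        unfold Sat at this ⊢
        simp [flp, h1, h2, this]
      · simp [flp, hz2, hy.2.2]
    have h1 := accepts_of_acc hG hy
    have h2 := accepts_of_acc hG hacc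
    have hne' : X y ≠ X (flp y {.inp i}) := by
      intro h
      have := congrFun h i
      simp [X, flp] at this
    have h3 := hd' _ _ h1 h2 hne'
    have h4 : hammingDist (X y) (X (flp y {.inp i})) ≤ 1 := by
      unfold hammingDist
      have : (Finset.univ.filter (fun j => X y j ≠ X (flp y {.inp i}) j)) ⊆ {i} := by
        intro j hj
        rw [Finset.mem_filter] at hj
        rw [Finset.mem_singleton]
        by_contra hji
        apply hj.2
        simp [X, flp, hji]
      exact le_trans (Finset.card_le_card this) (by simp)
    omega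
  have h1 := count hin hga
  have h2 := card_le hG hd' S (fun x hx => (hC x).mpr hx)
  have h3 : 2 ^ N ≤ 2 ^ (r + (Phi C G).card) := by
    rw [pow_add]
    exact hcard.trans (Nat.mul_le_mul_left _ h2)
  have h4 : N ≤ r + (Phi C G).card := (Nat.pow_le_pow_iff_right (by norm_num)).mp h3
  have h5 : G.card ≤ s := by simpa using Finset.card_le_univ G
  omega

end Pool.Agent.Lib_helper20.RB
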