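import Mathlib

set_option linter.unusedSectionVars false

namespace Pool.Agent.Lib_helper20.RB

variable {V K : Type} [DecidableEq V] [DecidableEq K]

/-- gate `k` is satisfied by the values `z` -/
def Sat (o l r : K → V) (op : K → Bool → Bool → Bool) (z : V → Bool) (k : K) : Prop :=
  z (o k) = op k (z (l k)) (z (r k))

/-- the values `y`, flipped on `Z` -/
def flp (y : V → Bool) (Z : Finset V) : V → Bool := fun v => if v ∈ Z then !(y v) else y v

/-- number of positions of gate `k` at which the node `v` stands -/
def slot (o l r : K → V) (k : K) (v : V) : ℕ :=
  (if o k = v then 1 else 0) + (if l k = v then 1 else 0) + (if r k = v then 1 else 0)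

def slots (o l r : K → V) (G : Finset K) (v : V) : ℕ := ∑ k ∈ G, slot o l r k v

lemma flp_insert_of_ne {y : V → Bool} {Z : Finset V} {e v : V} (h : v ≠ e) :
    flp y (insert e Z) v = flp y Z v := by
  simp [flp, Finset.mem_insert, h]

lemma sat_congr {o l r : K → V} {op : K → Bool → Bool → Bool} {z z' : V → Bool} {k : K}
    (h1 : z (o k) = z' (o k)) (h2 : z (l k) = z' (l k)) (h3 : z (r k) = z' (r k)) :
    Sat o l r op z k ↔ Sat o l r op z' k := by
  unfold Sat
  rw [h1, h2, h3]

lemma slot_zero {o l r : K → V} {k : K} {v : V} (h : slot o l r k v = 0) :
    o k ≠ v ∧ l k ≠ v ∧ r k ≠ v := by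
  unfold slot at h
  refine ⟨?_, ?_, ?_⟩ <;> · intro h'; simp [h'] at h

/-- the Boolean core: the position of `e` is determined by the two other positions -/
lemma bool_core (op : Bool → Bool → Bool) (e f g : Bool) (bf bg hf hg : Bool)
    (h0 : g = op e f) (h1 : ¬ g = op (!e) f)
    (h2 : (if hg = true then !g else g) = op (!e) (if hf = true then !f else f))
    (h3 : ¬ (if hg = true then !g else g) = op e (if hf = true then !f else f))
    (hbf : bf = true → hf = true) (hbg : bg = true → hg = true) :
    (((if bg = true then !g else g) = op e (if bf = true then !f else f)) ↔
      ¬ ((if bg = true then !g else g) = op (!e) (if bf = true then !f else f))) := by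
  cases e <;> cases f <;> cases g <;> cases bf <;> cases bg <;> cases hf <;> cases hg <;>
    simp_all

lemma key {o l r : K → V} {op : K → Bool → Bool → Bool} {y : V → Bool} {E : Finset V} {e : V}
    (k : K) (he : e ∈ E) (hs : slot o l r k e = 1)
    (h0 : Sat o l r op (flp y ∅) k) (h1 : ¬ Sat o l r op (flp y {e}) k)
    (h2 : Sat o l r op (flp y E) k) (h3 : ¬ Sat o l r op (flp y (E.erase e)) k)
    {Z : Finset V} (hZ : Z ⊆ E.erase e) :
    Sat o l r op (flp y Z) k ↔ ¬ Sat o l r op (flp y (insert e Z)) k := by
  have heZ : e ∉ Z := fun h => by simpa using hZ h
  have hsub : ∀ v, v ∈ Z → v ∈ E := fun v h => Finset.mem_of_mem_erase (hZ h)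
  by_cases ho : o k = e
  · have hl : l k ≠ e := by intro h; simp [slot, ho, h] at hs; omega
    have hr : r k ≠ e := by intro h; simp [slot, ho, h] at hs
    have a1 : flp y (insert e Z) (l k) = flp y Z (l k) := flp_insert_of_ne hl
    have a2 : flp y (insert e Z) (r k) = flp y Z (r k) := flp_insert_of_ne hr
    have a3 : flp y (insert e Z) (o k) = !(flp y Z (o k)) := by simp [flp, ho, heZ]
    unfold Sat
    rw [a1, a2, a3]
    cases flp y Z (o k) <;> cases op k (flp y Z (l k)) (flp y Z (r k)) <;> simp
  · by_cases hl : l k = e
    · have hr : r k ≠ e := by intro h; simp [slot, hl, h] at hs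
      have hc := bool_core (op k) (y e) (y (r k)) (y (o k)) (decide (r k ∈ Z))
        (decide (o k ∈ Z)) (decide (r k ∈ E)) (decide (o k ∈ E))
        (by simpa [Sat, flp, hl] using h0)
        (by simpa [Sat, flp, hl, ho, hr] using h1)
        (by simpa [Sat, flp, hl, he] using h2)
        (by simpa [Sat, flp, hl, ho, hr] using h3)
        (by simpa using hsub _) (by simpa using hsub _)
      simpa [Sat, flp, hl, ho, hr, heZ, Finset.mem_insert] using hc
    · have hr : r k = e := by
        by_contra h
        simp [slot, ho, hl, h] at hs
      have hc := bool_core (fun a b => op k b a) (y e) (y (l k)) (y (o k)) (decide (l k ∈ Z))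
        (decide (o k ∈ Z)) (decide (l k ∈ E)) (decide (o k ∈ E))
        (by simpa [Sat, flp, hr] using h0)
        (by simpa [Sat, flp, hl, ho, hr] using h1)
        (by simpa [Sat, flp, hr, he] using h2)
        (by simpa [Sat, flp, hl, ho, hr] using h3)
        (by simpa using hsub _) (by simpa using hsub _)
      simpa [Sat, flp, hl, ho, hr, heZ, Finset.mem_insert] using hc

/-- **Rigid sets.** If every node of `E` stands at no more than two positions and the only sets of
flips inside `E` that keep all gates satisfied are `∅` and `E`, then `E` occupies at least
`2|E| - 2` positions. -/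
theorem rigid {o l r : K → V} {op : K → Bool → Bool → Bool} {y : V → Bool} :
    ∀ (n : ℕ) (E : Finset V) (G : Finset K), E.card = n →
      (∀ Z ⊆ E, (∀ k ∈ G, Sat o l r op (flp y Z) k) ↔ (Z = ∅ ∨ Z = E)) →
      (∀ e ∈ E, slots o l r G e ≤ 2) →
      2 * E.card ≤ ∑ e ∈ E, slots o l r G e + 2 := by
  intro n
  induction n with
  | zero => intro E G hE _ _; omega
  | succ n ih =>
    intro E G hE hrig hle
    by_cases hall : ∀ e ∈ E, slots o l r G e = 2
    · rw [Finset.sum_congr rfl hall, Finset.sum_const, smul_eq_mul]
      omega
    · push Not at hall
      obtain ⟨e, he, hne⟩ := hall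
      have hlt : slots o l r G e < 2 := lt_of_le_of_ne (hle e he) hne
      have hempty := (hrig ∅ (Finset.empty_subset _)).mpr (Or.inl rfl)
      have hfull := (hrig E (Finset.Subset.refl _)).mpr (Or.inr rfl)
      by_cases hEe : E = {e}
      · rw [hEe]; simp
      · have hE' : (E.erase e).card = n := by
          rw [Finset.card_erase_of_mem he, hE]; rfl
        have hne' : (E.erase e).Nonempty := by
          rw [Finset.nonempty_iff_ne_empty]
          intro h
          apply hEe
          rw [← Finset.insert_erase he, h]
          rfl
        -- `{e}` and `E \ {e}` are not solutions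
        have hn1 : ¬ ∀ k ∈ G, Sat o l r op (flp y {e}) k := by
          rw [hrig {e} (by simpa using he)]
          rintro (h | h)
          · simp at h
          · exact hEe h.symm
        have hn2 : ¬ ∀ k ∈ G, Sat o l r op (flp y (E.erase e)) k := by
          rw [hrig _ (Finset.erase_subset _ _)]
          rintro (h | h)
          · exact (Finset.nonempty_iff_ne_empty.mp hne') h
          · rw [h] at hE'; omega
        -- there is exactly one gate with a position for `e`
        have hunaff : ∀ k, slot o l r k e = 0 → ∀ Z : Finset V,
            (Sat o l r op (flp y (insert e Z)) k ↔ Sat o l r op (flp y Z) k) := by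
          intro k hk Z
          obtain ⟨a1, a2, a3⟩ := slot_zero hk
          exact sat_congr (flp_insert_of_ne a1) (flp_insert_of_ne a2) (flp_insert_of_ne a3)
        have hex : ∃ k ∈ G, slot o l r k e ≠ 0 := by
          by_contra hcon
          push Not at hcon
          apply hn1
          intro k hk
          have := (hunaff k (hcon k hk) ∅).mpr (hempty k hk)
          simpa using this
        obtain ⟨k, hk, hks⟩ := hex
        have hsum : slots o l r G e = slot o l r k e + slots o l r (G.erase k) e := by
          unfold slots
          exact (Finset.add_sum_erase G (fun k => slot o l r k e) hk).symm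
        have hk1 : slot o l r k e = 1 := by omega
        have hrest : slots o l r (G.erase k) e = 0 := by omega
        have hrest' : ∀ j ∈ G.erase k, slot o l r j e = 0 := by
          intro j hj
          unfold slots at hrest
          exact (Finset.sum_eq_zero_iff.mp hrest) j hj
        have h1 : ¬ Sat o l r op (flp y {e}) k := by
          intro h
          apply hn1
          intro j hj
          by_cases hjk : j = k
          · rw [hjk]; exact h
          · have := (hunaff j (hrest' j (Finset.mem_erase.mpr ⟨hjk, hj⟩)) ∅).mpr (hempty j hj)
            simpa using this
        have h3 : ¬ Sat o l r op (flp y (E.erase e)) k := by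
          intro h
          apply hn2
          intro j hj
          by_cases hjk : j = k
          · rw [hjk]; exact h
          · have := (hunaff j (hrest' j (Finset.mem_erase.mpr ⟨hjk, hj⟩)) (E.erase e)).mp
            rw [Finset.insert_erase he] at this
            exact this (hfull j hj)
        have hkey := fun (Z : Finset V) (hZ : Z ⊆ E.erase e) =>
          key k he hk1 (hempty k hk) h1 (hfull k hk) h3 hZ
        -- the reduced system is rigid
        have hrig' : ∀ Z ⊆ E.erase e, (∀ j ∈ G.erase k, Sat o l r op (flp y Z) j) ↔
            (Z = ∅ ∨ Z = E.erase e) := by
          intro Z hZ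
          have heZ : e ∉ Z := fun h => by simpa using hZ h
          have hZE : Z ⊆ E := hZ.trans (Finset.erase_subset _ _)
          constructor
          · intro hsat
            by_cases hs : Sat o l r op (flp y Z) k
            · have hall : ∀ j ∈ G, Sat o l r op (flp y Z) j := by
                intro j hj
                by_cases hjk : j = k
                · rw [hjk]; exact hs
                · exact hsat j (Finset.mem_erase.mpr ⟨hjk, hj⟩)
              rcases (hrig Z hZE).mp hall with h | h
              · left; exact h
              · exfalso; rw [h] at heZ; exact heZ he
            · have hs' : Sat o l r op (flp y (insert e Z)) k := by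
                by_contra hcon
                exact hs ((hkey Z hZ).mpr hcon)
              have hall : ∀ j ∈ G, Sat o l r op (flp y (insert e Z)) j := by
                intro j hj
                by_cases hjk : j = k
                · rw [hjk]; exact hs'
                · have hj' := Finset.mem_erase.mpr ⟨hjk, hj⟩
                  exact (hunaff j (hrest' j hj') Z).mpr (hsat j hj')
              rcases (hrig _ (Finset.insert_subset he hZE)).mp hall with h | h
              · exfalso
                exact Finset.insert_ne_empty _ _ h
              · right
                rw [← h, Finset.erase_insert heZ]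
          · rintro (h | h)
            · subst h
              intro j hj
              exact hempty j (Finset.mem_of_mem_erase hj)
            · subst h
              intro j hj
              have := (hunaff j (hrest' j hj) (E.erase e)).mp
              rw [Finset.insert_erase he] at this
              exact this (hfull j (Finset.mem_of_mem_erase hj))
        have hsl : ∀ v, slots o l r G v = slot o l r k v + slots o l r (G.erase k) v := by
          intro v
          unfold slots
          exact (Finset.add_sum_erase G (fun k => slot o l r k v) hk).symm
        have hih := ih (E.erase e) (G.erase k) hE' hrig' (by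
          intro v hv
          have := hle v (Finset.mem_of_mem_erase hv)
          rw [hsl v] at this
          omega)
        -- some node of `E \ {e}` has a position at gate `k`
        have hpos : 1 ≤ ∑ v ∈ E.erase e, slot o l r k v := by
          by_contra hcon
          have hz : ∀ v ∈ E.erase e, slot o l r k v = 0 := by
            apply Finset.sum_eq_zero_iff.mp
            omega
          apply h1
          have hag : ∀ v, slot o l r k v ≠ 0 → flp y {e} v = flp y E v := by
            intro v hv
            by_cases hve : v = e
            · simp [flp, hve, he]
            · have hvE : v ∉ E := by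
                intro h
                exact hv (hz v (Finset.mem_erase.mpr ⟨hve, h⟩))
              simp [flp, hve, hvE]
          refine (sat_congr (hag _ ?_) (hag _ ?_) (hag _ ?_)).mpr (hfull k hk)
          · simp [slot]
          · simp [slot]
          · simp [slot]
        have e1 : ∑ v ∈ E, slots o l r G v = slots o l r G e + ∑ v ∈ E.erase e, slots o l r G v :=
          (Finset.add_sum_erase _ _ he).symm
        have e2 : ∑ v ∈ E.erase e, slots o l r G v = ∑ v ∈ E.erase e, slot o l r k v +
            ∑ v ∈ E.erase e, slots o l r (G.erase k) v := by
          rw [← Finset.sum_add_distrib]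
          exact Finset.sum_congr rfl (fun v _ => hsl v)
        rw [hE'] at hih
        rw [hE, e1, e2]
        have e3 := hsl e
        omega

end Pool.Agent.Lib_helper20.RB
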