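import Pool.Agent.Lib_helper20.RB.Defs
import Pool.Agent.Lib_helper20.RB.Rigid

namespace Pool.Agent.Lib_helper20.RB

variable {N m s : ℕ}

/-- equivalence with a sum type -/
def nodeEquiv (N m s : ℕ) : Node N m s ≃ (Bool ⊕ Fin N) ⊕ (Fin m ⊕ Fin s) where
  toFun
    | .const b => Sum.inl (Sum.inl b)
    | .inp i => Sum.inl (Sum.inr i)
    | .wit j => Sum.inr (Sum.inl j)
    | .gate k => Sum.inr (Sum.inr k)
  invFun
    | Sum.inl (Sum.inl b) => .const b
    | Sum.inl (Sum.inr i) => .inp i
    | Sum.inr (Sum.inl j) => .wit j
    | Sum.inr (Sum.inr k) => .gate k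
  left_inv := by intro n; cases n <;> rfl
  right_inv := by rintro ((b | i) | (j | k)) <;> rfl

instance : Fintype (Node N m s) := Fintype.ofEquiv _ (nodeEquiv N m s).symm

/-- value of a node -/
def ev (C : Circuit N m s) (x : Fin N → Bool) (w : Fin m → Bool) : Node N m s → Bool
  | .const b => b
  | .inp i => x i
  | .wit j => w j
  | .gate k => C.op k (ev C x w (C.left k)) (ev C x w (C.right k))
  termination_by n => n.rank
  decreasing_by
    · exact Nat.lt_succ_of_le (C.left_rank k)
    · exact Nat.lt_succ_of_le (C.right_rank k)

lemma val_ev (C : Circuit N m s) (x : Fin N → Bool) (w : Fin m → Bool) (n : Node N m s) :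
    n.val x w (fun k => ev C x w (.gate k)) = ev C x w n := by
  cases n with
  | const b => rw [ev]; rfl
  | inp i => rw [ev]; rfl
  | wit j => rw [ev]; rfl
  | gate k => rfl

lemma run_ev (C : Circuit N m s) (x : Fin N → Bool) (w : Fin m → Bool) :
    C.Run x w (fun k => ev C x w (.gate k)) := by
  intro k
  rw [val_ev, val_ev]
  simp only
  rw [ev]

lemma ev_of_run (C : Circuit N m s) {x : Fin N → Bool} {w : Fin m → Bool} {g : Fin s → Bool}
    (h : C.Run x w g) (n : Node N m s) : n.val x w g = ev C x w n := by
  have key : ∀ r : ℕ, ∀ n : Node N m s, n.rank ≤ r → n.val x w g = ev C x w n := by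
    intro r
    induction r with
    | zero =>
        intro n hn
        cases n with
        | const b => rw [ev]; rfl
        | inp i => rw [ev]; rfl
        | wit j => rw [ev]; rfl
        | gate k => simp [Node.rank] at hn
    | succ r ih =>
        intro n hn
        cases n with
        | const b => rw [ev]; rfl
        | inp i => rw [ev]; rfl
        | wit j => rw [ev]; rfl
        | gate k =>
            have h1 := C.left_rank k
            have h2 := C.right_rank k
            simp only [Node.rank] at hn
            rw [ev, ← ih _ (by omega), ← ih _ (by omega)]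
            exact h k
  exact key n.rank n le_rfl

lemma accepts_iff (C : Circuit N m s) (x : Fin N → Bool) :
    C.Accepts x ↔ ∃ w, ev C x w C.out = true := by
  constructor
  · rintro ⟨w, g, hr, ho⟩
    exact ⟨w, by rw [← ev_of_run C hr]; exact ho⟩
  · rintro ⟨w, hw⟩
    exact ⟨w, _, run_ev C x w, by rw [val_ev]; exact hw⟩

/-- a set of gates containing the gates needed for the output -/
def Closed (C : Circuit N m s) (G : Finset (Fin s)) : Prop :=
  (∀ j, C.out = .gate j → j ∈ G) ∧
    ∀ k ∈ G, ∀ j, (C.left k = .gate j ∨ C.right k = .gate j) → j ∈ G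

/-- number of times the node `v` is read by a gate of `G` or by the output -/
def reads (C : Circuit N m s) (G : Finset (Fin s)) (v : Node N m s) : ℕ :=
  (∑ k ∈ G, ((if C.left k = v then 1 else 0) + (if C.right k = v then 1 else 0))) +
    (if C.out = v then 1 else 0)

lemma exists_min_closed (C : Circuit N m s) :
    ∃ G, Closed C G ∧ ∀ k ∈ G, 1 ≤ reads C G (.gate k) := by
  classical
  set fam : Finset (Finset (Fin s)) := Finset.univ.filter (fun G => Closed C G) with hfam
  have hne : fam.Nonempty := ⟨Finset.univ, by simp [hfam, Closed]⟩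
  obtain ⟨G, hG, hmin⟩ := Finset.exists_min_image fam Finset.card hne
  have hGc : Closed C G := (Finset.mem_filter.mp hG).2
  refine ⟨G, hGc, ?_⟩
  intro k hk
  by_contra hcon
  have hz : reads C G (.gate k) = 0 := by omega
  unfold reads at hz
  have hz1 : ∑ j ∈ G, ((if C.left j = .gate k then 1 else 0) +
      (if C.right j = .gate k then 1 else 0)) = 0 := by omega
  have hz2 : C.out ≠ .gate k := by
    intro h
    simp [h] at hz
  have hz3 := Finset.sum_eq_zero_iff.mp hz1
  have hcl : Closed C (G.erase k) := by
    refine ⟨?_, ?_⟩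
    · intro j hj
      refine Finset.mem_erase.mpr ⟨?_, hGc.1 j hj⟩
      rintro rfl
      exact hz2 hj
    · intro i hi j hj
      have hi' := Finset.mem_of_mem_erase hi
      refine Finset.mem_erase.mpr ⟨?_, hGc.2 i hi' j hj⟩
      rintro rfl
      have := hz3 i hi'
      rcases hj with h | h <;> simp [h] at this
  have := hmin (G.erase k) (by simp [hfam, hcl])
  rw [Finset.card_erase_of_mem hk] at this
  have hpos := Finset.card_pos.mpr ⟨k, hk⟩
  omega

/-- `y` satisfies the gates of `G` and makes the output true. -/
def Acc (C : Circuit N m s) (G : Finset (Fin s)) (y : Node N m s → Bool) : Prop :=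
  (∀ b, y (.const b) = b) ∧
    (∀ k ∈ G, Sat (fun k => Node.gate k) C.left C.right C.op y k) ∧ y C.out = true

/-- the input part -/
def X (y : Node N m s → Bool) : Fin N → Bool := fun i => y (.inp i)

lemma accepts_of_acc {C : Circuit N m s} {G : Finset (Fin s)} (hG : Closed C G)
    {y : Node N m s → Bool} (h : Acc C G y) : C.Accepts (X y) := by
  rw [accepts_iff]
  refine ⟨fun j => y (.wit j), ?_⟩
  have key : ∀ r : ℕ, ∀ n : Node N m s, n.rank ≤ r → (∀ k, n = .gate k → k ∈ G) →
      ev C (X y) (fun j => y (.wit j)) n = y n := by
    intro r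
    induction r with
    | zero =>
        intro n hn _
        cases n with
        | const b => rw [ev]; exact (h.1 b).symm
        | inp i => rw [ev]; rfl
        | wit j => rw [ev]
        | gate k => simp [Node.rank] at hn
    | succ r ih =>
        intro n hn hg
        cases n with
        | const b => rw [ev]; exact (h.1 b).symm
        | inp i => rw [ev]; rfl
        | wit j => rw [ev]
        | gate k =>
            have h1 := C.left_rank k
            have h2 := C.right_rank k
            simp only [Node.rank] at hn
            have hk := hg k rfl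
            rw [ev, ih _ (by omega) (fun j hj => hG.2 k hk j (Or.inl hj)),
              ih _ (by omega) (fun j hj => hG.2 k hk j (Or.inr hj))]
            exact (h.2.1 k hk).symm
  rw [key _ _ le_rfl (fun j hj => hG.1 j hj)]
  exact h.2.2

lemma acc_of_accepts {C : Circuit N m s} (G : Finset (Fin s)) {x : Fin N → Bool}
    (h : C.Accepts x) : ∃ y, Acc C G y ∧ X y = x := by
  rw [accepts_iff] at h
  obtain ⟨w, hw⟩ := h
  refine ⟨ev C x w, ⟨?_, ?_, hw⟩, ?_⟩
  · intro b; rw [ev]
  · intro k _
    unfold Sat
    rw [ev]
  · funext i
    unfold X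
    rw [ev]

end Pool.Agent.Lib_helper20.RB
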