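import Pool.Agent.Lib_helper20.RB.Defs

namespace Pool.Agent.Lib_helper20.RB

variable {N s : ℕ}

/-- Boolean functions of `N` variables -/
abbrev BF (N : ℕ) : Type := (Fin N → Bool) → Bool

/-- the empty witness -/
def w0 : Fin 0 → Bool := fun _ => false

/-- All functions in `A` are computed by one deterministic circuit with `s` gates. -/
def Comp (N s : ℕ) (A : Set (BF N)) : Prop :=
  ∃ (op : Fin s → Bool → Bool → Bool) (l r : Fin s → Node N 0 s),
    (∀ k, (l k).rank ≤ k.val) ∧ (∀ k, (r k).rank ≤ k.val) ∧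
    ∃ g : (Fin N → Bool) → Fin s → Bool,
      (∀ x k, g x k = op k ((l k).val x w0 (g x)) ((r k).val x w0 (g x))) ∧
      ∀ f ∈ A, ∃ v : Node N 0 s, ∀ x, v.val x w0 (g x) = f x

lemma Comp.mono {A B : Set (BF N)} (h : Comp N s A) (hB : B ⊆ A) : Comp N s B := by
  obtain ⟨op, l, r, h1, h2, g, h3, h4⟩ := h
  exact ⟨op, l, r, h1, h2, g, h3, fun f hf => h4 f (hB hf)⟩

/-- a node in a longer circuit -/
def lift {N m s : ℕ} : Node N m s → Node N m (s + 1)
  | .const b => .const b
  | .inp i => .inp i
  | .wit j => .wit j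
  | .gate k => .gate k.castSucc

lemma rank_lift {m : ℕ} (v : Node N m s) : (lift v).rank = v.rank := by
  cases v <;> simp [lift, Node.rank]

lemma val_lift {m : ℕ} (v : Node N m s) (x : Fin N → Bool) (w : Fin m → Bool)
    (g : Fin s → Bool) (b : Bool) :
    (lift v).val x w (Fin.snoc (α := fun _ => Bool) g b) = v.val x w g := by
  cases v <;> simp [lift, Node.val]

lemma rank_le {m : ℕ} (v : Node N m s) : v.rank ≤ s := by
  cases v with
  | gate k => exact k.2
  | _ => simp [Node.rank]

lemma comp_step {A : Set (BF N)} (h : Comp N s A) (o : Bool → Bool → Bool) {f f' : BF N}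
    (hf : f ∈ A) (hf' : f' ∈ A) :
    Comp N (s + 1) (insert (fun x => o (f x) (f' x)) A) := by
  obtain ⟨op, l, r, h1, h2, g, h3, h4⟩ := h
  obtain ⟨v, hv⟩ := h4 f hf
  obtain ⟨v', hv'⟩ := h4 f' hf'
  refine ⟨Fin.snoc (α := fun _ => Bool → Bool → Bool) op o,
    Fin.snoc (α := fun _ => Node N 0 (s + 1)) (fun k => lift (l k)) (lift v),
    Fin.snoc (α := fun _ => Node N 0 (s + 1)) (fun k => lift (r k)) (lift v'), ?_, ?_,
    fun x => Fin.snoc (α := fun _ => Bool) (g x) (o (f x) (f' x)), ?_, ?_⟩
  · intro k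
    refine Fin.lastCases ?_ (fun k => ?_) k
    · simp only [Fin.snoc_last, rank_lift, Fin.val_last]
      exact rank_le v
    · simp only [Fin.snoc_castSucc, rank_lift, Fin.val_castSucc]
      exact h1 k
  · intro k
    refine Fin.lastCases ?_ (fun k => ?_) k
    · simp only [Fin.snoc_last, rank_lift, Fin.val_last]
      exact rank_le v'
    · simp only [Fin.snoc_castSucc, rank_lift, Fin.val_castSucc]
      exact h2 k
  · intro x k
    refine Fin.lastCases ?_ (fun k => ?_) k
    · simp only [Fin.snoc_last, val_lift, hv, hv']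
    · simp only [Fin.snoc_castSucc, val_lift]
      exact h3 x k
  · intro f'' hf''
    rcases hf'' with h | h
    · refine ⟨.gate (Fin.last s), fun x => ?_⟩
      rw [h]
      simp [Node.val]
    · obtain ⟨u, hu⟩ := h4 f'' h
      exact ⟨lift u, fun x => by rw [val_lift]; exact hu x⟩

/-- the projections -/
def projs (N : ℕ) : Set (BF N) := {f | ∃ i : Fin N, f = fun x => x i}

lemma comp_base : Comp N 0 (projs N ∪ {fun _ => false}) := by
  refine ⟨fun k => k.elim0, fun k => k.elim0, fun k => k.elim0, fun k => k.elim0,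
    fun k => k.elim0, fun _ k => k.elim0, fun _ k => k.elim0, ?_⟩
  intro f hf
  rcases hf with ⟨i, hi⟩ | h
  · exact ⟨.inp i, fun x => by rw [hi]; rfl⟩
  · exact ⟨.const false, fun x => by rw [h]; rfl⟩

/-- from `Comp` to a circuit -/
lemma comp_circuit {A : Set (BF N)} (h : Comp N s A) {f : BF N} (hf : f ∈ A) :
    ∃ C : Circuit N 0 s, ∀ x, C.Accepts x ↔ f x = true := by
  obtain ⟨op, l, r, h1, h2, g, h3, h4⟩ := h
  obtain ⟨v, hv⟩ := h4 f hf
  refine ⟨⟨op, l, r, v, h1, h2⟩, fun x => ?_⟩
  constructor
  · rintro ⟨w, g', hr, ho⟩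
    have hw : w = w0 := by funext j; exact j.elim0
    subst hw
    have hg : ∀ n : ℕ, ∀ k : Fin s, k.val < n → g' k = g x k := by
      intro n
      induction n with
      | zero => intro k hk; omega
      | succ n ih =>
        intro k hk
        have hval : ∀ u : Node N 0 s, u.rank ≤ k.val → u.val x w0 g' = u.val x w0 (g x) := by
          intro u hu
          cases u with
          | const b => rfl
          | inp i => rfl
          | wit j => rfl
          | gate k' =>
            simp only [Node.rank] at hu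
            exact ih k' (by omega)
        have e1 := hr k
        simp only at e1
        rw [e1, h3 x k, hval _ (h1 k), hval _ (h2 k)]
    have hgg : g' = g x := by
      funext k
      exact hg s k k.2
    rw [hgg] at ho
    rw [← hv x]
    exact ho
  · intro hx
    exact ⟨w0, g x, fun k => h3 x k, by rw [← hv x] at hx; exact hx⟩

/-- adding one gate for every element of a finite set -/
lemma comp_map {ι : Type} [DecidableEq ι] {A : Set (BF N)} (h : Comp N s A)
    (o : Bool → Bool → Bool) (f f' : ι → BF N) (I : Finset ι) (hf : ∀ i ∈ I, f i ∈ A)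
    (hf' : ∀ i ∈ I, f' i ∈ A) :
    ∃ B, A ⊆ B ∧ Comp N (s + I.card) B ∧ ∀ i ∈ I, (fun x => o (f i x) (f' i x)) ∈ B := by
  induction I using Finset.induction_on with
  | empty => exact ⟨A, subset_rfl, by simpa using h, by simp⟩
  | insert a I ha ih =>
    obtain ⟨B, hAB, hB, hI⟩ := ih (fun i hi => hf i (Finset.mem_insert_of_mem hi))
      (fun i hi => hf' i (Finset.mem_insert_of_mem hi))
    refine ⟨insert (fun x => o (f a x) (f' a x)) B, hAB.trans (Set.subset_insert _ _), ?_, ?_⟩
    · rw [Finset.card_insert_of_notMem ha, ← add_assoc]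
      exact comp_step hB o (hAB (hf a (Finset.mem_insert_self _ _)))
        (hAB (hf' a (Finset.mem_insert_self _ _)))
    · intro i hi
      rcases Finset.mem_insert.mp hi with h | h
      · subst h; exact Set.mem_insert _ _
      · exact Set.mem_insert_of_mem _ (hI i h)

/-- sums of functions -/
lemma comp_sum {ι : Type} [DecidableEq ι] {A : Set (BF N)} (h : Comp N s A)
    (f : ι → BF N) (I : Finset ι) (hne : I.Nonempty) (hf : ∀ i ∈ I, f i ∈ A) :
    ∃ B, A ⊆ B ∧ Comp N (s + (I.card - 1)) B ∧ (fun x => ∑ i ∈ I, f i x) ∈ B := by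
  induction hne using Finset.Nonempty.cons_induction with
  | singleton a => exact ⟨A, subset_rfl, by simpa using h, by simpa using hf a (by simp)⟩
  | cons a I ha hne ih =>
    obtain ⟨B, hAB, hB, hI⟩ := ih (fun i hi => hf i (Finset.mem_cons_of_mem hi))
    refine ⟨insert (fun x => (f a x) + (∑ i ∈ I, f i x)) B, hAB.trans (Set.subset_insert _ _),
      ?_, ?_⟩
    · have hc := hne.card_pos
      rw [Finset.card_cons, show s + (I.card + 1 - 1) = s + (I.card - 1) + 1 by omega]
      exact comp_step hB (fun a b => a + b) (hAB (hf a (Finset.mem_cons_self _ _))) hI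
    · left
      funext x
      rw [Finset.sum_cons]

/-- many sums -/
lemma comp_sums {ι κ : Type} [DecidableEq ι] [DecidableEq κ] {A : Set (BF N)} (h : Comp N s A)
    (f : ι → BF N) (T : Finset κ) (H : κ → Finset ι) (hne : ∀ t ∈ T, (H t).Nonempty)
    (hf : ∀ t ∈ T, ∀ i ∈ H t, f i ∈ A) :
    ∃ B, A ⊆ B ∧ Comp N (s + ∑ t ∈ T, ((H t).card - 1)) B ∧
      ∀ t ∈ T, (fun x => ∑ i ∈ H t, f i x) ∈ B := by
  induction T using Finset.induction_on with
  | empty => exact ⟨A, subset_rfl, by simpa using h, by simp⟩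
  | insert a T ha ih =>
    obtain ⟨B, hAB, hB, hI⟩ := ih (fun t ht => hne t (Finset.mem_insert_of_mem ht))
      (fun t ht => hf t (Finset.mem_insert_of_mem ht))
    obtain ⟨B', hBB', hB', hI'⟩ := comp_sum hB f (H a) (hne a (Finset.mem_insert_self _ _))
      (fun i hi => hAB (hf a (Finset.mem_insert_self _ _) i hi))
    refine ⟨B', hAB.trans hBB', ?_, ?_⟩
    · rw [Finset.sum_insert ha, show s + (((H a).card - 1) + ∑ t ∈ T, ((H t).card - 1)) =
        s + ∑ t ∈ T, ((H t).card - 1) + ((H a).card - 1) by ring]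
      exact hB'
    · intro t ht
      rcases Finset.mem_insert.mp ht with h | h
      · subst h; exact hI'
      · exact hBB' (hI t h)

/-- disjunctions -/
lemma comp_or {κ : Type} [DecidableEq κ] {A : Set (BF N)} (h : Comp N s A)
    (f : κ → BF N) (T : Finset κ) (hne : T.Nonempty) (hf : ∀ t ∈ T, f t ∈ A) :
    ∃ B, A ⊆ B ∧ Comp N (s + (T.card - 1)) B ∧
      (fun x => decide (∃ t ∈ T, f t x = true)) ∈ B := by
  induction hne using Finset.Nonempty.cons_induction with
  | singleton a => exact ⟨A, subset_rfl, by simpa using h, by simpa using hf a (by simp)⟩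
  | cons a I ha hne ih =>
    obtain ⟨B, hAB, hB, hI⟩ := ih (fun i hi => hf i (Finset.mem_cons_of_mem hi))
    refine ⟨insert (fun x => (f a x) || decide (∃ t ∈ I, f t x = true)) B,
      hAB.trans (Set.subset_insert _ _), ?_, ?_⟩
    · have hc := hne.card_pos
      rw [Finset.card_cons, show s + (I.card + 1 - 1) = s + (I.card - 1) + 1 by omega]
      exact comp_step hB (fun a b => a || b) (hAB (hf a (Finset.mem_cons_self _ _))) hI
    · left
      funext x
      cases hfa : f a x <;> simp [hfa]

/-- all functions of a set of at least two functions vanish -/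
lemma comp_nor {κ : Type} [DecidableEq κ] {A : Set (BF N)} (h : Comp N s A)
    (f : κ → BF N) (T : Finset κ) (hT : 2 ≤ T.card) (hf : ∀ t ∈ T, f t ∈ A) :
    ∃ C : Circuit N 0 (s + (T.card - 1)), ∀ x, C.Accepts x ↔ ∀ t ∈ T, f t x = false := by
  have hTne : T.Nonempty := Finset.card_pos.mp (by omega)
  obtain ⟨a, ha⟩ := hTne
  have hc : (T.erase a).card = T.card - 1 := Finset.card_erase_of_mem ha
  have hne : (T.erase a).Nonempty := Finset.card_pos.mp (by omega)
  obtain ⟨B, hAB, hB, hI⟩ := comp_or h f (T.erase a) hne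
    (fun t ht => hf t (Finset.mem_of_mem_erase ht))
  have hstep := comp_step hB (fun a b => !(a || b)) (hAB (hf a ha)) hI
  rw [show s + ((T.erase a).card - 1) + 1 = s + (T.card - 1) by omega] at hstep
  obtain ⟨C, hC⟩ := comp_circuit hstep (Set.mem_insert _ _)
  refine ⟨C, fun x => ?_⟩
  rw [hC x]
  simp only [Bool.not_eq_true', Bool.or_eq_false_iff, decide_eq_false_iff_not]
  constructor
  · rintro ⟨h1, h2⟩ t ht
    by_cases hta : t = a
    · rw [hta]; exact h1
    · by_contra hcon
      exact h2 ⟨t, Finset.mem_erase.mpr ⟨hta, ht⟩, by simpa using hcon⟩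
  · intro hall
    refine ⟨hall a ha, ?_⟩
    rintro ⟨t, ht, h3⟩
    rw [hall t (Finset.mem_of_mem_erase ht)] at h3
    exact Bool.false_ne_true h3

/-- the syndrome of the Hamming code: `k` sums with `2 (2^k - 1) - 2k` gates -/
lemma comp_hamming (k : ℕ) : ∀ {s : ℕ} {A : Set (BF N)} (_ : Comp N s A) (z : ℕ → BF N)
    (_ : ∀ u, 1 ≤ u → u < 2 ^ k → z u ∈ A),
    ∃ s' B, s' + 2 * k + 2 = s + 2 * 2 ^ k ∧ A ⊆ B ∧ Comp N s' B ∧
      ∀ t < k, (fun x => ∑ u ∈ Finset.range (2 ^ k), if u.testBit t then z u x else 0) ∈ B := by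
  induction k with
  | zero =>
    intro s A h z hz
    exact ⟨s, A, by omega, subset_rfl, h, by intro t ht; omega⟩
  | succ k ih =>
    intro s A h z hz
    have hp : 1 ≤ 2 ^ k := Nat.one_le_two_pow
    have hp2 : 2 ^ (k + 1) = 2 ^ k + 2 ^ k := by rw [pow_succ]; ring
    obtain ⟨B1, hA1, hB1, hI1⟩ := comp_map h (fun a b => a + b) z (fun u => z (2 ^ k + u))
      (Finset.Ico 1 (2 ^ k)) (by
        intro u hu
        rw [Finset.mem_Ico] at hu
        exact hz u hu.1 (by omega)) (by
        intro u hu
        rw [Finset.mem_Ico] at hu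
        exact hz _ (by omega) (by omega))
    obtain ⟨B2, hA2, hB2, hI2⟩ := comp_sum hB1 (fun u => z (2 ^ k + u)) (Finset.range (2 ^ k))
      ⟨0, by simp⟩ (by
        intro u hu
        rw [Finset.mem_range] at hu
        exact hA1 (hz _ (by omega) (by omega)))
    obtain ⟨s', B3, hs', hA3, hB3, hI3⟩ := ih hB2 (fun u x => z u x + z (2 ^ k + u) x) (by
      intro u h1 h2
      exact hA2 (hI1 u (Finset.mem_Ico.mpr ⟨h1, h2⟩)))
    refine ⟨s', B3, ?_, hA1.trans (hA2.trans hA3), hB3, ?_⟩
    · rw [Nat.card_Ico, Finset.card_range] at hs'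
      omega
    · intro t ht
      rcases Nat.lt_succ_iff_lt_or_eq.mp ht with ht' | ht'
      · have := hI3 t ht'
        convert this using 2 with x
        rw [hp2, Finset.sum_range_add, ← Finset.sum_add_distrib]
        apply Finset.sum_congr rfl
        intro u _
        have htb : (2 ^ k + u).testBit t = u.testBit t := Nat.testBit_two_pow_add_gt ht' u
        rw [htb]
        split_ifs <;> simp
      · subst ht'
        have := hA3 hI2
        convert this using 2 with x
        rw [hp2, Finset.sum_range_add]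
        have h0 : ∑ u ∈ Finset.range (2 ^ t), (if u.testBit t then z u x else 0) = 0 := by
          apply Finset.sum_eq_zero
          intro u hu
          rw [Finset.mem_range] at hu
          rw [Nat.testBit_lt_two_pow hu]
          simp
        rw [h0, zero_add]
        apply Finset.sum_congr rfl
        intro u hu
        rw [Finset.mem_range] at hu
        rw [Nat.testBit_two_pow_add_eq, Nat.testBit_lt_two_pow hu]
        simp

end Pool.Agent.Lib_helper20.RB
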